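import Pool.Agent.Y262.EX.Stm

/-!
# Project EX: complete flows are smooth
-/

set_option autoImplicit false

open Set Filter Topology
open scoped ContDiff

noncomputable section

namespace Pool.Agent.Y115.EX

open Pool.Agent.Y262.EG Pool.Agent.Y262.EX

/-- Uniqueness of integral curves. -/
theorem uniq {O : Set Y} {X : Y → Y} (hO : IsOpen O) (hX : ContDiffOn ℝ ∞ X O) {I : Set ℝ}
    (hI : IsOpen I) (hc : IsPreconnected I) {a b : ℝ → Y}
    (ha : ∀ t ∈ I, a t ∈ O ∧ HasDerivAt a (X (a t)) t)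
    (hb : ∀ t ∈ I, b t ∈ O ∧ HasDerivAt b (X (b t)) t) {t0 : ℝ} (h0 : t0 ∈ I)
    (he : a t0 = b t0) : ∀ t ∈ I, a t = b t := by
  have hloc : ∀ t ∈ I, a t = b t → ∀ᶠ s in 𝓝 t, a s = b s := by
    intro t ht hab
    have hXt : ContDiffAt ℝ 1 X (a t) :=
      (hX.contDiffAt (hO.mem_nhds (ha t ht).1)).of_le (by exact_mod_cast le_top)
    obtain ⟨K, N, hN, hK⟩ := hXt.exists_lipschitzOnWith
    have h1 : ∀ᶠ s in 𝓝 t, HasDerivAt a (X (a s)) s ∧ a s ∈ N := by
      filter_upwards [hI.mem_nhds ht, (ha t ht).2.continuousAt.preimage_mem_nhds hN] with s hs hs'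
      exact ⟨(ha s hs).2, hs'⟩
    have h2 : ∀ᶠ s in 𝓝 t, HasDerivAt b (X (b s)) s ∧ b s ∈ N := by
      filter_upwards [hI.mem_nhds ht,
        (hb t ht).2.continuousAt.preimage_mem_nhds (by rw [← hab]; exact hN)] with s hs hs'
      exact ⟨(hb s hs).2, hs'⟩
    exact ODE_solution_unique_of_eventually (v := fun _ => X) (s := fun _ => N)
      (Eventually.of_forall fun _ => hK) h1 h2 hab
  set u : Set ℝ := {t | ∀ᶠ s in 𝓝 t, a s = b s} with hu
  have huo : IsOpen u := by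
    rw [isOpen_iff_mem_nhds]
    intro t ht
    exact eventually_eventually_nhds.2 ht
  have hsub : I ⊆ u := by
    refine hc.subset_of_closure_inter_subset huo ⟨t0, h0, hloc t0 h0 he⟩ ?_
    rintro t ⟨ht, htI⟩
    refine hloc t htI ?_
    have hfr : ∃ᶠ s in 𝓝 t, a s = b s := by
      refine (mem_closure_iff_frequently.1 ht).mono ?_
      intro s hs
      exact hs.self_of_nhds
    by_contra hne
    have h3 : ∀ᶠ s in 𝓝 t, a s ≠ b s :=
      ((ha t htI).2.continuousAt.ne_iff_eventually_ne (hb t htI).2.continuousAt).1 hne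
    exact hfr h3
  intro t ht
  exact (hsub ht).self_of_nhds

theorem smo : StLFl → StSmo := by
  intro hL O X hO hX Fl h0 hF
  -- the group law
  have hgrp : ∀ p ∈ O, ∀ s t : ℝ, Fl (t + s) p = Fl t (Fl s p) := by
    intro p hp s t
    refine uniq hO hX isOpen_univ isPreconnected_univ (a := fun t => Fl (t + s) p)
      (b := fun t => Fl t (Fl s p)) ?_ ?_ (mem_univ 0) ?_ t (mem_univ t)
    · intro t _
      refine ⟨(hF p hp (t + s)).1, ?_⟩
      have h := (hF p hp (t + s)).2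
      exact h.comp_add_const t s
    · intro t _
      exact hF _ (hF p hp s).1 t
    · show Fl (0 + s) p = Fl 0 (Fl s p)
      rw [zero_add, h0 _ (hF p hp s).1]
  -- local smoothness
  have hloc : ∀ p ∈ O, ∃ ε r : ℝ, 0 < ε ∧ 0 < r ∧ Metric.ball p r ⊆ O ∧
      ContDiffOn ℝ ∞ (fun a : ℝ × Y => Fl a.1 a.2) (Ioo (-ε) ε ×ˢ Metric.ball p r) := by
    intro p hp
    obtain ⟨ε, r, α, hε, hr, hb, hα, hα'⟩ := hL O X hO hX p hp
    refine ⟨ε, r, hε, hr, hb, hα.congr ?_⟩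
    rintro ⟨t, y⟩ ⟨ht, hy⟩
    have hε0 : (0 : ℝ) ∈ Ioo (-ε) ε := ⟨by linarith, hε⟩
    refine uniq hO hX isOpen_Ioo isPreconnected_Ioo (a := fun τ => Fl τ y)
      (b := fun τ => α (τ, y)) ?_ ?_ hε0 ?_ t ht
    · intro τ _
      exact hF y (hb hy) τ
    · intro τ hτ
      exact (hα' τ hτ y hy).2
    · show Fl 0 y = α (0, y)
      rw [h0 y (hb hy), (hα' 0 hε0 y hy).1]
  -- global smoothness
  have hglob : ∀ p ∈ O, ∀ t : ℝ, ∃ U : Set (ℝ × Y), IsOpen U ∧ (t, p) ∈ U ∧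
      ContDiffOn ℝ ∞ (fun a : ℝ × Y => Fl a.1 a.2) U := by
    intro p hp
    set S : Set ℝ := {t | ∃ U : Set (ℝ × Y), IsOpen U ∧ (t, p) ∈ U ∧
      ContDiffOn ℝ ∞ (fun a : ℝ × Y => Fl a.1 a.2) U} with hS
    have hS0 : (0 : ℝ) ∈ S := by
      obtain ⟨ε, r, hε, hr, -, h⟩ := hloc p hp
      exact ⟨_, isOpen_Ioo.prod Metric.isOpen_ball,
        ⟨⟨by show -ε < 0; linarith, hε⟩, Metric.mem_ball_self hr⟩, h⟩
    have hSo : IsOpen S := by
      rw [isOpen_iff_mem_nhds]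
      rintro t ⟨U, hU, htU, hs⟩
      have hc : Continuous fun s : ℝ => ((s, p) : ℝ × Y) := by fun_prop
      filter_upwards [hc.continuousAt.preimage_mem_nhds (hU.mem_nhds htU)] with s hs'
      exact ⟨U, hU, hs', hs⟩
    have hSc : IsClosed S := by
      refine closure_subset_iff_isClosed.1 ?_
      intro t ht
      obtain ⟨ε, r, hε, hr, hb, hsm⟩ := hloc (Fl t p) (hF p hp t).1
      have hN : {s : ℝ | t - s ∈ Ioo (-ε) ε} ∩ (fun s => Fl s p) ⁻¹' Metric.ball (Fl t p) r ∈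
          𝓝 t := by
        refine inter_mem ?_ ?_
        · have hc : Continuous fun s : ℝ => t - s := by fun_prop
          refine hc.continuousAt.preimage_mem_nhds (isOpen_Ioo.mem_nhds ?_)
          rw [sub_self]
          exact ⟨by linarith, hε⟩
        · exact (hF p hp t).2.continuousAt.preimage_mem_nhds (Metric.ball_mem_nhds _ hr)
      obtain ⟨t1, ⟨ht1, ht1'⟩, U1, hU1, htU1, hs1⟩ := mem_closure_iff_nhds.1 ht _ hN
      set W1 : Set Y := O ∩ {y | (t1, y) ∈ U1} with hW1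
      have hW1o : IsOpen W1 := by
        have hc : Continuous fun y : Y => ((t1, y) : ℝ × Y) := by fun_prop
        exact hO.inter (hU1.preimage hc)
      have hin : ContDiffOn ℝ ∞ (fun y : Y => Fl t1 y) W1 := by
        have h1 : ContDiffOn ℝ ∞ (fun y : Y => ((t1, y) : ℝ × Y)) W1 :=
          (contDiff_const.prodMk contDiff_id).contDiffOn
        exact hs1.comp h1 (fun y hy => hy.2)
      set W : Set Y := W1 ∩ (fun y : Y => Fl t1 y) ⁻¹' Metric.ball (Fl t p) r with hW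
      have hWo : IsOpen W := hin.continuousOn.isOpen_inter_preimage hW1o Metric.isOpen_ball
      have hJo : IsOpen {s : ℝ | s - t1 ∈ Ioo (-ε) ε} := by
        have hc : Continuous fun s : ℝ => s - t1 := by fun_prop
        exact isOpen_Ioo.preimage hc
      refine ⟨{s : ℝ | s - t1 ∈ Ioo (-ε) ε} ×ˢ W, hJo.prod hWo, ⟨ht1, ⟨hp, htU1⟩, ht1'⟩, ?_⟩
      have h2 : ContDiffOn ℝ ∞ (fun a : ℝ × Y => ((a.1 - t1, Fl t1 a.2) : ℝ × Y))
          ({s : ℝ | s - t1 ∈ Ioo (-ε) ε} ×ˢ W) := by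
        refine ContDiffOn.prodMk (contDiff_fst.sub contDiff_const).contDiffOn ?_
        exact hin.comp contDiff_snd.contDiffOn (fun a ha => ha.2.1)
      have h3 := hsm.comp h2 (fun a ha => ⟨ha.1, ha.2.2⟩)
      refine h3.congr ?_
      rintro ⟨s, y⟩ ⟨_, hy⟩
      show Fl s y = Fl (s - t1) (Fl t1 y)
      rw [← hgrp y hy.1.1, sub_add_cancel]
    have hSu : S = univ := IsClopen.eq_univ ⟨hSc, hSo⟩ ⟨0, hS0⟩
    intro t
    have : t ∈ S := by rw [hSu]; exact mem_univ t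
    exact this
  rintro ⟨t, p⟩ hp
  obtain ⟨U, hU, hm, hs⟩ := hglob p hp t
  exact (hs.contDiffAt (hU.mem_nhds hm)).contDiffWithinAt

end Pool.Agent.Y115.EX
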